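import Mathlib
import Pool.Agent.Helper96.LB3.Stmts

open MeasureTheory Module Set
open scoped ENNReal Pointwise

namespace Pool.Agent.Helper70.LB3

open Pool.Agent.Helper96.LB3

variable {Y ι : Type} [NormedAddCommGroup Y] [NormedSpace ℝ Y]

theorem isClosed_KB [FiniteDimensional ℝ Y] (β : ι → Y →ₗ[ℝ] ℝ) (q h : ι → ℝ) :
    IsClosed (KB β q h) := by
  have : KB β q h = ⋂ u, {x : Y × ℝ | |β u x.1 + q u * x.2| ≤ h u} := by
    ext x; simp [KB]
  rw [this]
  refine isClosed_iInter fun u => isClosed_le ?_ continuous_const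
  have hc : Continuous (β u) := (β u).continuous_of_finiteDimensional
  exact ((hc.comp continuous_fst).add (continuous_const.mul continuous_snd)).abs

/-- The linear map to the values of the strips. -/
noncomputable def vals (β : ι → Y →ₗ[ℝ] ℝ) (q : ι → ℝ) : (Y × ℝ) →ₗ[ℝ] (ι → ℝ) :=
  LinearMap.pi (fn β q)

theorem isCompact_KB [FiniteDimensional ℝ Y] [Fintype ι] (β : ι → Y →ₗ[ℝ] ℝ) (q h : ι → ℝ)
    (hs : SepB β q) : IsCompact (KB β q h) := by
  have hker : LinearMap.ker (vals β q) = ⊥ := by
    rw [LinearMap.ker_eq_bot']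
    intro x hx
    obtain ⟨h1, h2⟩ := hs x.1 x.2 (fun u => by
      have := congrFun hx u
      simpa [vals, fn] using this)
    exact Prod.ext h1 h2
  have hemb := LinearMap.isClosedEmbedding_of_injective hker
  have hc : IsCompact (Set.pi Set.univ fun u => Icc (-h u) (h u)) :=
    isCompact_univ_pi fun u => isCompact_Icc
  have heq : KB β q h = vals β q ⁻¹' (Set.pi Set.univ fun u => Icc (-h u) (h u)) := by
    ext x
    constructor
    · intro hx u _
      have h1 := abs_le.1 (hx u)
      exact ⟨h1.1, h1.2⟩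
    · intro hx u
      have h1 := hx u (Set.mem_univ u)
      exact abs_le.2 ⟨h1.1, h1.2⟩
  rw [heq]
  exact hemb.isCompact_preimage hc

theorem PB_eq_image (β : ι → Y →ₗ[ℝ] ℝ) (q h : ι → ℝ) :
    PB β q h = Prod.fst '' (KB β q h) := by
  ext y
  constructor
  · rintro ⟨z, hz⟩
    exact ⟨(y, z), hz, rfl⟩
  · rintro ⟨x, hx, rfl⟩
    exact ⟨x.2, hx⟩

theorem isCompact_PB [FiniteDimensional ℝ Y] [Fintype ι] (β : ι → Y →ₗ[ℝ] ℝ) (q h : ι → ℝ)
    (hs : SepB β q) : IsCompact (PB β q h) := by
  rw [PB_eq_image]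
  exact (isCompact_KB β q h hs).image continuous_fst

theorem zero_lt_meas_PB [FiniteDimensional ℝ Y] [MeasurableSpace Y] [BorelSpace Y] [Fintype ι]
    (ν : Measure Y) [ν.IsAddHaarMeasure] (β : ι → Y →ₗ[ℝ] ℝ) (q h : ι → ℝ)
    (hh : ∀ u, 0 < h u) : 0 < ν (PB β q h) := by
  have hopen : IsOpen (⋂ u, {y : Y | |β u y| < h u}) := by
    refine isOpen_iInter_of_finite fun u => isOpen_lt ?_ continuous_const
    exact (β u).continuous_of_finiteDimensional.abs
  have hne : (⋂ u, {y : Y | |β u y| < h u}).Nonempty := ⟨0, by simp [hh]⟩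
  have hsub : (⋂ u, {y : Y | |β u y| < h u}) ⊆ PB β q h := by
    intro y hy
    refine ⟨0, fun u => ?_⟩
    have := Set.mem_iInter.1 hy u
    have h2 : |β u y| < h u := this
    simpa using h2.le
  exact lt_of_lt_of_le (hopen.measure_pos ν hne) (measure_mono hsub)

/-- VO2. -/
theorem st_VO2 : ST_FIB → ST_VO2 := by
  intro hfib Y ι _ _ _ _ _ ν _ _ β q hs h hh t ht hle
  classical
  -- fibres
  have hF := hfib Y ι β q hs h
  choose a b hab using hF
  have hF0 : ∀ y, FB β q h y = Icc (a y) (b y) := by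
    intro y
    have := hab y 0 le_rfl
    simpa using this
  set h' : ι → ℝ := fun u => h u - t * |q u| with hh'
  have hFt : ∀ y, FB β q h' y = Icc (a y + t) (b y - t) := fun y => hab y t ht
  -- measurability and finiteness
  have hKm : MeasurableSet (KB β q h) := (isClosed_KB β q h).measurableSet
  have hKm' : MeasurableSet (KB β q h') := (isClosed_KB β q h').measurableSet
  have hKfin : (ν.prod (volume : Measure ℝ)) (KB β q h) < ∞ :=
    (isCompact_KB β q h hs).measure_lt_top
  have hPfin : ν (PB β q h) < ∞ := (isCompact_PB β q h hs).measure_lt_top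
  have hPpos : 0 < ν (PB β q h) := zero_lt_meas_PB ν β q h hh
  -- the two volumes
  have hV : (ν.prod (volume : Measure ℝ)) (KB β q h)
      = ∫⁻ y, ENNReal.ofReal (b y - a y) ∂ν := by
    rw [Measure.prod_apply hKm]
    refine lintegral_congr fun y => ?_
    have : Prod.mk y ⁻¹' KB β q h = FB β q h y := rfl
    rw [this, hF0 y, Real.volume_Icc]
  have hV' : (ν.prod (volume : Measure ℝ)) (KB β q h')
      = ∫⁻ y, (ENNReal.ofReal (b y - a y) - ENNReal.ofReal (2 * t)) ∂ν := by
    rw [Measure.prod_apply hKm']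
    refine lintegral_congr fun y => ?_
    have : Prod.mk y ⁻¹' KB β q h' = FB β q h' y := rfl
    rw [this, hFt y, Real.volume_Icc, ← ENNReal.ofReal_sub _ (by positivity)]
    congr 1
    ring
  have hgm : Measurable fun y => ENNReal.ofReal (b y - a y) := by
    have hm := measurable_measure_prodMk_left (ν := (volume : Measure ℝ)) hKm
    have : (fun y => (volume : Measure ℝ) (Prod.mk y ⁻¹' KB β q h))
        = fun y => ENNReal.ofReal (b y - a y) := by
      funext y
      have : Prod.mk y ⁻¹' KB β q h = FB β q h y := rfl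
      rw [this, hF0 y, Real.volume_Icc]
    rwa [this] at hm
  -- length at the origin
  have hsym : ∀ y, a y ≤ b y → b y - a y ≤ b 0 - a 0 := by
    intro y hy
    have hby : b y ∈ FB β q h y := by rw [hF0 y]; exact ⟨hy, le_rfl⟩
    have hay : a y ∈ FB β q h y := by rw [hF0 y]; exact ⟨le_rfl, hy⟩
    have hd : (b y - a y) / 2 ∈ FB β q h 0 := by
      intro u
      have h1 := abs_le.1 (hby u)
      have h2 := abs_le.1 (hay u)
      rw [map_zero, zero_add, abs_le]
      constructor <;> linarith [h1.1, h1.2, h2.1, h2.2]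
    have hd' : -((b y - a y) / 2) ∈ FB β q h 0 := by
      intro u
      have h1 := abs_le.1 (hby u)
      have h2 := abs_le.1 (hay u)
      rw [map_zero, zero_add, abs_le]
      constructor <;> linarith [h1.1, h1.2, h2.1, h2.2]
    rw [hF0 0] at hd hd'
    linarith [hd.2, hd'.1]
  have hmem0 : ∀ y, y ∈ PB β q h ↔ a y ≤ b y := by
    intro y
    constructor
    · rintro ⟨z, hz⟩
      have : z ∈ FB β q h y := hz
      rw [hF0 y] at this
      exact this.1.trans this.2
    · intro hy
      refine ⟨a y, ?_⟩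
      have : a y ∈ FB β q h y := by rw [hF0 y]; exact ⟨le_rfl, hy⟩
      exact this
  have h0mem : (0 : Y) ∈ PB β q h := ⟨0, fun u => by simpa using (hh u).le⟩
  have hab0 : a 0 ≤ b 0 := (hmem0 0).1 h0mem
  have hVle : (ν.prod (volume : Measure ℝ)) (KB β q h)
      ≤ ENNReal.ofReal (b 0 - a 0) * ν (PB β q h) := by
    rw [hV]
    have hPm : MeasurableSet (PB β q h) := (isCompact_PB β q h hs).isClosed.measurableSet
    calc ∫⁻ y, ENNReal.ofReal (b y - a y) ∂ν
        ≤ ∫⁻ y, (PB β q h).indicator (fun _ => ENNReal.ofReal (b 0 - a 0)) y ∂ν := by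
          refine lintegral_mono fun y => ?_
          by_cases hy : y ∈ PB β q h
          · simp only [indicator_of_mem hy]
            exact ENNReal.ofReal_le_ofReal (hsym y ((hmem0 y).1 hy))
          · simp only [indicator_of_notMem hy]
            have : b y - a y ≤ 0 := by
              by_contra hcon
              exact hy ((hmem0 y).2 (by linarith))
            exact le_of_eq (ENNReal.ofReal_of_nonpos this)
      _ = ENNReal.ofReal (b 0 - a 0) * ν (PB β q h) := by
          rw [lintegral_indicator hPm, setLIntegral_const]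
  -- real numbers
  set A : ℝ := AB ν β q h with hA
  set V : ℝ := VB ν β q h with hVdef
  have hApos : 0 < A := by
    rw [hA]; unfold AB Measure.real
    exact ENNReal.toReal_pos hPpos.ne' hPfin.ne
  have hVA : V ≤ (b 0 - a 0) * A := by
    rw [hVdef, hA]; unfold VB AB Measure.real
    have := ENNReal.toReal_mono (ENNReal.mul_ne_top ENNReal.ofReal_ne_top hPfin.ne) hVle
    rwa [ENNReal.toReal_mul, ENNReal.toReal_ofReal (by linarith)] at this
  rcases ht.eq_or_lt with ht0 | htpos
  · -- t = 0
    have : h' = h := by funext u; simp [hh', ← ht0]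
    rw [this, ← hVdef, ← ht0]
    simp
  have hVpos : 0 < V := by nlinarith
  set L : ℝ := b 0 - a 0 with hL
  have hLt : 2 * t ≤ L := by nlinarith
  have hLpos : 0 < L := by linarith
  set s : ℝ := 2 * t / L with hsdef
  have hs0 : 0 ≤ s := by positivity
  have hs1 : s ≤ 1 := by rw [hsdef, div_le_one hLpos]; exact hLt
  have hsL : s * L = 2 * t := by rw [hsdef]; field_simp
  -- large fibres
  set S : Set Y := (1 - s) • PB β q h with hS
  have hSm : MeasurableSet S := by
    have : IsCompact S := (isCompact_PB β q h hs).smul (1 - s)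
    exact this.isClosed.measurableSet
  have hbig : ∀ y ∈ S, 2 * t ≤ b y - a y := by
    rintro y ⟨y', ⟨z', hz'⟩, rfl⟩
    have key : ∀ z ∈ FB β q h 0, (1 - s) * z' + s * z ∈ FB β q h ((1 - s) • y') := by
      intro z hz u
      have h1 := abs_le.1 (hz' u)
      have h2 := abs_le.1 (hz u)
      rw [map_zero, zero_add] at h2
      have e : β u ((1 - s) • y') + q u * ((1 - s) * z' + s * z)
          = (1 - s) * (β u y' + q u * z') + s * (q u * z) := by
        rw [map_smul, smul_eq_mul]; ring
      rw [e, abs_le]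
      have hs1' : 0 ≤ 1 - s := by linarith
      constructor <;> nlinarith [h1.1, h1.2, h2.1, h2.2]
    have e1 := key (a 0) (by rw [hF0 0]; exact ⟨le_rfl, hab0⟩)
    have e2 := key (b 0) (by rw [hF0 0]; exact ⟨hab0, le_rfl⟩)
    rw [hF0] at e1 e2
    have e3 : s * (b 0 - a 0) = 2 * t := hsL
    have e1' := e1.1
    have e2' := e2.2
    show 2 * t ≤ b ((1 - s) • y') - a ((1 - s) • y')
    linarith
  have hSmeas : ν S = ENNReal.ofReal ((1 - s) ^ finrank ℝ Y) * ν (PB β q h) := by
    rw [hS, Measure.addHaar_smul, abs_of_nonneg (by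
      have : 0 ≤ 1 - s := by linarith
      positivity)]
  -- the main inequality in extended form
  have hmain : (ν.prod (volume : Measure ℝ)) (KB β q h') + ENNReal.ofReal (2 * t) * ν S
      ≤ (ν.prod (volume : Measure ℝ)) (KB β q h) := by
    rw [hV, hV']
    have : ENNReal.ofReal (2 * t) * ν S
        = ∫⁻ y, S.indicator (fun _ => ENNReal.ofReal (2 * t)) y ∂ν := by
      rw [lintegral_indicator hSm, setLIntegral_const]
    rw [this, ← lintegral_add_right _ (measurable_const.indicator hSm)]
    refine lintegral_mono fun y => ?_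
    by_cases hy : y ∈ S
    · simp only [indicator_of_mem hy]
      exact le_of_eq (tsub_add_cancel_of_le (ENNReal.ofReal_le_ofReal (hbig y hy)))
    · simp only [indicator_of_notMem hy, add_zero]
      exact tsub_le_self
  have hmainR : VB ν β q h' + 2 * t * ((1 - s) ^ finrank ℝ Y * A) ≤ V := by
    have hs1' : 0 ≤ 1 - s := by linarith
    have hle' : (ν.prod (volume : Measure ℝ)) (KB β q h') ≤ (ν.prod (volume : Measure ℝ)) (KB β q h) :=
      le_trans le_self_add hmain
    have := ENNReal.toReal_mono hKfin.ne hmain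
    rw [ENNReal.toReal_add (lt_of_le_of_lt hle' hKfin).ne
      (ENNReal.mul_ne_top ENNReal.ofReal_ne_top (by
        rw [hSmeas]; exact ENNReal.mul_ne_top ENNReal.ofReal_ne_top hPfin.ne)),
      ENNReal.toReal_mul, ENNReal.toReal_ofReal (by positivity), hSmeas, ENNReal.toReal_mul,
      ENNReal.toReal_ofReal (by positivity)] at this
    exact this
  -- Bernoulli
  have hB : 1 - (finrank ℝ Y : ℝ) * s ≤ (1 - s) ^ finrank ℝ Y := by
    have := one_add_mul_le_pow (a := -s) (by linarith) (finrank ℝ Y)
    have e : (1 : ℝ) + (finrank ℝ Y : ℝ) * (-s) = 1 - (finrank ℝ Y : ℝ) * s := by ring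
    have e2 : (1 + -s : ℝ) = 1 - s := by ring
    rw [e, e2] at this
    exact this
  have hsle : s ≤ 2 * t * A / V := by
    rw [hsdef, div_le_div_iff₀ hLpos hVpos]
    nlinarith
  have hm0 : (0 : ℝ) ≤ finrank ℝ Y := Nat.cast_nonneg _
  have h5 : 1 - (finrank ℝ Y : ℝ) * (2 * t * A / V) ≤ (1 - s) ^ finrank ℝ Y := by
    have := mul_le_mul_of_nonneg_left hsle hm0
    linarith
  have h6 : 2 * t * A * (1 - (finrank ℝ Y : ℝ) * (2 * t * A / V))
      ≤ 2 * t * A * (1 - s) ^ finrank ℝ Y :=
    mul_le_mul_of_nonneg_left h5 (by positivity)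
  have h7 : 2 * t * ((1 - s) ^ finrank ℝ Y * A) = 2 * t * A * (1 - s) ^ finrank ℝ Y := by ring
  linarith

end Pool.Agent.Helper70.LB3
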